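import Mathlib
import Pool.Agent.Lib.helper21.Indep

namespace Pool.Agent.H.MP_87eb76_gt

open Set Filter Topology Cardinal

noncomputable section

abbrev C : Type := ℕ → Bool

abbrev D : Type := Finset (C × Bool)

abbrev T : Type := ℕ × ℕ × Finset (List Bool × Bool)

def res (m : ℕ) (γ : C) : List Bool := List.ofFn fun i : Fin m => γ i

theorem exists_sep (s : D) : ∃ m, ∀ x ∈ s, ∀ y ∈ s, res m x.1 = res m y.1 → x.1 = y.1 := by
  have h : ∀ a b : C, ∀ᶠ m in atTop, res m a = res m b → a = b := by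
    intro a b
    by_cases hab : a = b
    · exact Eventually.of_forall fun _ _ => hab
    · obtain ⟨t, ht⟩ := Function.ne_iff.1 hab
      filter_upwards [eventually_gt_atTop t] with m hm h
      exact absurd (congrFun (List.ofFn_injective h) ⟨t, hm⟩) ht
  exact ((eventually_all_finset s).2 fun x _ => (eventually_all_finset s).2 fun y _ =>
    h x.1 y.1).exists

open Classical in
def τ (s : D) : T :=
  (s.card, (exists_sep s).choose, s.image fun x => (res (exists_sep s).choose x.1, x.2))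

def Sub (s : D) (p : C → Bool) : Prop := ∀ x ∈ s, x.2 = p x.1

theorem τ_sep {p q : C → Bool} {γ : C} {s s' : D} (hs' : Sub s' q) (h1 : (γ, p γ) ∈ s)
    (h2 : (γ, q γ) ∈ s') (h : τ s = τ s') : p γ = q γ := by
  classical
  simp only [τ, Prod.mk.injEq] at h
  obtain ⟨-, hm, hi⟩ := h
  have h3 := Finset.mem_image_of_mem (fun x : C × Bool => (res (exists_sep s).choose x.1, x.2)) h1
  have h4 : (res (exists_sep s).choose γ, p γ) ∈
      s'.image fun x => (res (exists_sep s').choose x.1, x.2) := by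
    convert hi ▸ h3
  obtain ⟨x, hx, hx2⟩ := Finset.mem_image.1 h4
  rw [Prod.mk.injEq, hm] at hx2
  have h5 : x.1 = γ := (exists_sep s').choose_spec x hx _ h2 hx2.1
  rw [← hx2.2, hs' x hx, h5]

theorem exists_beta : ∃ β : D → ℝ, Function.Injective β ∧
    ∀ P : Set ℝ, IsClosed P → P ⊆ range β → P.Countable := by
  let B := {P : Set ℝ // IsClosed P ∧ ¬ P.Countable}
  have hB : #B ≤ 𝔠 := by
    have h1 : #{t : Set ℝ | @MeasurableSet ℝ (MeasurableSpace.generateFrom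
        (⋃ a : ℚ, {Iio (a : ℝ)})) t} ≤ 𝔠 :=
      MeasurableSpace.cardinal_measurableSet_le_continuum
        ((le_aleph0_iff_set_countable.2 (countable_iUnion fun _ => countable_singleton _)).trans
          aleph0_le_continuum)
    refine le_trans (mk_le_mk_of_subset (s := {P : Set ℝ | IsClosed P ∧ ¬ P.Countable}) ?_) h1
    intro P hP
    have := hP.1.measurableSet
    rw [mem_ofPred_eq, ← Real.borel_eq_generateFrom_Iio_rat]
    exact this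
  obtain ⟨f, f1, f2, -⟩ := Pool.Agent.Lib.helper21.Indep.exists_indep ℝ (B ⊕ D)
    (Sum.elim (fun b => b.1) (fun _ => univ)) 𝔠 aleph0_lt_continuum
    (by
      rw [mk_sum, lift_id, lift_id, mk_finset_of_infinite]
      have : #(C × Bool) = 𝔠 := by simp
      rw [this]
      calc #B + 𝔠 ≤ 𝔠 + 𝔠 := by gcongr
        _ = 𝔠 := by simp)
    (by
      rintro (b | d)
      · exact (Pool.Agent.Lib.helper21.Indep.card_of_measurable b.2.1.measurableSet b.2.2).ge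
      · simp [mk_real])
  refine ⟨fun d => f (Sum.inr d), f2.comp Sum.inr_injective, fun P hP hs => ?_⟩
  by_contra hc
  obtain ⟨d, hd⟩ := hs (f1 (Sum.inl ⟨P, hP, hc⟩))
  exact Sum.inr_ne_inl (f2 hd)

/-- The space. -/
def X (_β : D → ℝ) : Type := (T × ℝ) ⊕ (C → Bool)

variable {β : D → ℝ}

def pl (β : D → ℝ) (t : T) (x : ℝ) : X β := Sum.inl (t, x)

def pr (β : D → ℝ) (p : C → Bool) : X β := Sum.inr p

def ι (β : D → ℝ) (s : D) : X β := pl β (τ s) (β s)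

theorem pl_inj {t t' : T} {x x' : ℝ} (h : pl β t x = pl β t' x') : t = t' ∧ x = x' :=
  Prod.mk.inj (Sum.inl.inj h)

theorem pl_ne_pr {t : T} {x : ℝ} {p : C → Bool} : pl β t x ≠ pr β p := Sum.inl_ne_inr

theorem X_cases (z : X β) : (∃ t x, z = pl β t x) ∨ ∃ p, z = pr β p := by
  rcases z with ⟨t, x⟩ | p
  · exact Or.inl ⟨t, x, rfl⟩
  · exact Or.inr ⟨p, rfl⟩

instance : TopologicalSpace (X β) where
  IsOpen O := (∀ t x, pl β t x ∈ O → x ∈ range β ∨ ∀ᶠ y in 𝓝 x, pl β t y ∈ O) ∧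
    ∀ p, pr β p ∈ O → ∃ F : Finset C, ∀ s, Sub s p → (∀ γ ∈ F, (γ, p γ) ∈ s) → ι β s ∈ O
  isOpen_univ := ⟨fun _ _ _ => Or.inr (Eventually.of_forall fun _ => trivial),
    fun _ _ => ⟨∅, fun _ _ _ => trivial⟩⟩
  isOpen_inter := by
    classical
    rintro s t ⟨hs1, hs2⟩ ⟨ht1, ht2⟩
    refine ⟨fun u x hx => ?_, fun p hp => ?_⟩
    · rcases hs1 u x hx.1 with h | h
      · exact Or.inl h
      rcases ht1 u x hx.2 with h' | h'
      · exact Or.inl h'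
      exact Or.inr (h.and h')
    · obtain ⟨F, hF⟩ := hs2 p hp.1
      obtain ⟨F', hF'⟩ := ht2 p hp.2
      exact ⟨F ∪ F', fun d h1 h2 => ⟨hF d h1 fun γ hγ => h2 γ (Finset.mem_union_left _ hγ),
        hF' d h1 fun γ hγ => h2 γ (Finset.mem_union_right _ hγ)⟩⟩
  isOpen_sUnion := by
    intro s hs
    refine ⟨?_, ?_⟩
    · rintro t x ⟨O, hO, hx⟩
      exact ((hs O hO).1 t x hx).imp id fun h => h.mono fun y hy => ⟨O, hO, hy⟩
    · rintro p ⟨O, hO, hp⟩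
      obtain ⟨F, hF⟩ := (hs O hO).2 p hp
      exact ⟨F, fun d h1 h2 => ⟨O, hO, hF d h1 h2⟩⟩

theorem isOpen_iff {O : Set (X β)} : IsOpen O ↔
    (∀ t x, pl β t x ∈ O → x ∈ range β ∨ ∀ᶠ y in 𝓝 x, pl β t y ∈ O) ∧
    ∀ p, pr β p ∈ O → ∃ F : Finset C, ∀ s, Sub s p → (∀ γ ∈ F, (γ, p γ) ∈ s) → ι β s ∈ O :=
  Iff.rfl

theorem lind_fibre (hβ : ∀ P : Set ℝ, IsClosed P → P ⊆ range β → P.Countable) (t : T) :
    IsLindelof (range (pl β t)) := by
  refine isLindelof_of_countable_subcover fun {I} U hU hc => ?_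
  let V : I → Set ℝ := fun i => interior {y | pl β t y ∈ U i}
  obtain ⟨S, hS, hSV⟩ := TopologicalSpace.isOpen_iUnion_countable V fun _ => isOpen_interior
  have hP : (⋃ i, V i)ᶜ.Countable := by
    refine hβ _ (isOpen_iUnion fun _ => isOpen_interior).isClosed_compl fun x hx => ?_
    obtain ⟨i, hi⟩ := mem_iUnion.1 (hc (mem_range_self x))
    rcases (isOpen_iff.1 (hU i)).1 t x hi with h | h
    · exact h
    · exact absurd (mem_iUnion.2 ⟨i, mem_interior_iff_mem_nhds.2 h⟩) hx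
  obtain ⟨S', hS', hS'U⟩ := (hP.image (pl β t)).isLindelof.elim_countable_subcover U hU
    ((image_subset_range _ _).trans hc)
  refine ⟨S ∪ S', hS.union hS', ?_⟩
  rintro _ ⟨x, rfl⟩
  by_cases hx : x ∈ ⋃ i, V i
  · rw [← hSV] at hx
    obtain ⟨i, hi, hxi⟩ := mem_iUnion₂.1 hx
    exact mem_iUnion₂.2 ⟨i, Or.inl hi, interior_subset (s := {y | pl β t y ∈ U i}) hxi⟩
  · obtain ⟨i, hi, hxi⟩ := mem_iUnion₂.1 (hS'U ⟨x, hx, rfl⟩)
    exact mem_iUnion₂.2 ⟨i, Or.inr hi, hxi⟩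

theorem meets {U : Set (X β)} (hU : IsOpen U) (hne : U.Nonempty) :
    ((⋃ t, range (pl β t)) ∩ U).Nonempty := by
  classical
  obtain ⟨z, hz⟩ := hne
  rcases X_cases z with ⟨t, x, rfl⟩ | ⟨p, rfl⟩
  · exact ⟨_, mem_iUnion.2 ⟨t, x, rfl⟩, hz⟩
  · obtain ⟨F, hF⟩ := (isOpen_iff.1 hU).2 p hz
    refine ⟨_, mem_iUnion.2 ⟨_, _, rfl⟩, hF (F.image fun γ => (γ, p γ)) ?_
      fun γ hγ => Finset.mem_image_of_mem _ hγ⟩
    intro x hx
    obtain ⟨γ, -, rfl⟩ := Finset.mem_image.1 hx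
    rfl

def Gl (β : D → ℝ) (n : ℕ) (t : T) (x : ℝ) : Set (X β) := pl β t '' Metric.ball x (1 / (n + 1))

def Gr (β : D → ℝ) (p : C → Bool) (Q : D → Prop) : Set (X β) :=
  insert (pr β p) (ι β '' {s | Sub s p ∧ Q s})

theorem isOpen_Gl (n : ℕ) (t : T) (x : ℝ) : IsOpen (Gl β n t x) := by
  refine isOpen_iff.2 ⟨?_, ?_⟩
  · rintro t' x' ⟨y, hy, h⟩
    obtain ⟨rfl, rfl⟩ := pl_inj h
    exact Or.inr (mem_of_superset (Metric.isOpen_ball.mem_nhds hy) fun w hw => ⟨w, hw, rfl⟩)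
  · rintro p ⟨y, -, h⟩
    exact absurd h pl_ne_pr

theorem isOpen_Gr (p : C → Bool) (Q : D → Prop) (F : Finset C)
    (hF : ∀ s, (∀ γ ∈ F, (γ, p γ) ∈ s) → Q s) : IsOpen (Gr β p Q) := by
  refine isOpen_iff.2 ⟨?_, ?_⟩
  · rintro t x (h | ⟨s, -, h⟩)
    · exact absurd h pl_ne_pr
    · exact Or.inl ⟨s, (pl_inj h).2⟩
  · rintro q (h | ⟨s, -, h⟩)
    · obtain rfl : q = p := Sum.inr.inj h
      exact ⟨F, fun s h1 h2 => Or.inr ⟨s, ⟨h1, hF s h2⟩, rfl⟩⟩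
    · exact absurd h pl_ne_pr

def G (n : ℕ) : X β → Set (X β) :=
  Sum.elim (fun a => Gl β n a.1 a.2) (fun p => Gr β p fun s => n ≤ s.card)

theorem isOpen_G (n : ℕ) (z : X β) : IsOpen (G n z) := by
  classical
  rcases X_cases z with ⟨t, x, rfl⟩ | ⟨p, rfl⟩
  · exact isOpen_Gl n t x
  · obtain ⟨F, hF⟩ := Infinite.exists_subset_card_eq C n
    refine isOpen_Gr p _ F fun s hs => ?_
    rw [← hF]
    exact Finset.card_le_card_of_injOn (fun γ => (γ, p γ)) hs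
      fun a _ b _ h => congrArg Prod.fst h

theorem mem_G (n : ℕ) (z : X β) : z ∈ G n z := by
  rcases X_cases z with ⟨t, x, rfl⟩ | ⟨p, rfl⟩
  · exact ⟨x, Metric.mem_ball_self (by positivity), rfl⟩
  · exact Or.inl rfl

theorem not_Gr {n : ℕ} {t : T} {x : ℝ} {p : C → Bool} (h : t.1 < n) :
    pl β t x ∉ G n (pr β p) := by
  rintro (h1 | ⟨s, hs, h1⟩)
  · exact pl_ne_pr h1
  · have : s.card = t.1 := congrArg Prod.fst (pl_inj h1).1
    exact absurd hs.2 (by omega)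

def Sep (a b : X β) : Prop := ∃ n O₁ O₂, IsOpen O₁ ∧ IsOpen O₂ ∧ a ∈ O₁ ∧ b ∈ O₂ ∧
  ∀ z, ∀ u ∈ O₁, ∀ v ∈ O₂, u ∈ G n z → v ∈ G n z → False

theorem Sep.symm {a b : X β} (h : Sep a b) : Sep b a := by
  obtain ⟨n, O₁, O₂, h1, h2, h3, h4, h5⟩ := h
  exact ⟨n, O₂, O₁, h2, h1, h4, h3, fun z u hu v hv a b => h5 z v hv u hu b a⟩

theorem sep_lr (t : T) (x : ℝ) (p : C → Bool) : Sep (pl β t x) (pr β p) := by
  refine ⟨t.1 + 1, _, _, isOpen_G (t.1 + 1) _, isOpen_G (t.1 + 1) _, mem_G _ _, mem_G _ _, ?_⟩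
  rintro z _ ⟨y, -, rfl⟩ v hv hu hv'
  rcases X_cases z with ⟨t', x', rfl⟩ | ⟨q, rfl⟩
  · obtain ⟨y', -, h⟩ := hu
    obtain ⟨y'', -, rfl⟩ := hv'
    obtain ⟨rfl, -⟩ := pl_inj h
    exact not_Gr (Nat.lt_succ_self _) hv
  · exact not_Gr (Nat.lt_succ_self _) hu

theorem sep_ll {t t' : T} {x x' : ℝ} (h : pl β t x ≠ pl β t' x') :
    Sep (pl β t x) (pl β t' x') := by
  have : ∃ n : ℕ, t.1 < n ∧ (t = t' → 4 * (1 / ((n : ℝ) + 1)) ≤ dist x x') := by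
    by_cases ht : t = t'
    · have hx : 0 < dist x x' := dist_pos.2 fun hx => h (by rw [ht, hx])
      have h1 : ∀ᶠ n : ℕ in atTop, 1 / ((n : ℝ) + 1) < dist x x' / 4 :=
        (tendsto_order.1 tendsto_one_div_add_atTop_nhds_zero_nat).2 _ (by positivity)
      obtain ⟨n, h2, h3⟩ := (h1.and (eventually_gt_atTop t.1)).exists
      exact ⟨n, h3, fun _ => by linarith⟩
    · exact ⟨t.1 + 1, Nat.lt_succ_self _, fun h => absurd h ht⟩
  obtain ⟨n, hn1, hn2⟩ := this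
  refine ⟨n, _, _, isOpen_G n _, isOpen_G n _, mem_G _ _, mem_G _ _, ?_⟩
  rintro z _ ⟨y, hy, rfl⟩ _ ⟨y', hy', rfl⟩ hu hv
  rcases X_cases z with ⟨t'', x'', rfl⟩ | ⟨q, rfl⟩
  · obtain ⟨w, hw, h1⟩ := hu
    obtain ⟨w', hw', h2⟩ := hv
    obtain ⟨rfl, rfl⟩ := pl_inj h1
    obtain ⟨h3, rfl⟩ := pl_inj h2
    have h4 := hn2 h3
    simp only [Metric.mem_ball] at hy hy' hw hw'
    have h5 := dist_triangle4 x w x'' w'
    have h6 := dist_triangle x w' x'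
    rw [dist_comm x w, dist_comm x'' w'] at h5
    linarith
  · exact not_Gr hn1 hu

theorem sep_rr (hβ : Function.Injective β) {p q : C → Bool} (h : p ≠ q) :
    Sep (pr β p) (pr β q) := by
  obtain ⟨γ, hγ⟩ := Function.ne_iff.1 h
  have key : ∀ (p r : C → Bool), ∀ u ∈ Gr β p (fun s => (γ, p γ) ∈ s), u ∈ G 0 (pr β r) →
      p γ = r γ := by
    rintro p r u (rfl | ⟨s, hs, rfl⟩) (h | ⟨s', hs', h⟩)
    · rw [Sum.inr.inj h]
    · exact absurd h pl_ne_pr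
    · exact absurd h pl_ne_pr
    · obtain rfl := hβ (pl_inj h).2
      exact hs'.1 _ hs.2
  refine ⟨0, Gr β p fun s => (γ, p γ) ∈ s, Gr β q fun s => (γ, q γ) ∈ s,
    isOpen_Gr p _ {γ} fun s hs => hs γ (Finset.mem_singleton_self _),
    isOpen_Gr q _ {γ} fun s hs => hs γ (Finset.mem_singleton_self _), Or.inl rfl, Or.inl rfl, ?_⟩
  intro z u hu v hv hu' hv'
  rcases X_cases z with ⟨t, x, rfl⟩ | ⟨r, rfl⟩
  · obtain ⟨y, -, rfl⟩ := hu'
    obtain ⟨y', -, rfl⟩ := hv'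
    rcases hu with h1 | ⟨s, hs, h1⟩
    · exact pl_ne_pr h1
    rcases hv with h2 | ⟨s', hs', h2⟩
    · exact pl_ne_pr h2
    exact hγ (τ_sep hs'.1 hs.2 hs'.2 ((pl_inj h1).1.trans (pl_inj h2).1.symm))
  · exact hγ ((key p r u hu hu').trans (key q r v hv hv').symm)

theorem sep (hβ : Function.Injective β) {a b : X β} (h : a ≠ b) : Sep a b := by
  rcases X_cases a with ⟨t, x, rfl⟩ | ⟨p, rfl⟩ <;> rcases X_cases b with ⟨t', x', rfl⟩ | ⟨q, rfl⟩
  · exact sep_ll h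
  · exact sep_lr _ _ _
  · exact (sep_lr _ _ _).symm
  · exact sep_rr hβ fun hpq => h (by rw [hpq])

theorem main : ∃ (X : Type) (_ : TopologicalSpace X),
    (∃ L : Set X, IsLindelof L ∧ ∀ U, IsOpen U → U.Nonempty → (L ∩ U).Nonempty) ∧
    (∃ W : ℕ → Set (X × X), (∀ n, IsOpen (W n) ∧ Set.diagonal X ⊆ W n) ∧
      (⋂ n, closure (W n)) = Set.diagonal X) ∧ 𝔠 < #X := by
  obtain ⟨β, h1, h2⟩ := exists_beta
  refine ⟨X β, inferInstance, ⟨_, isLindelof_iUnion (lind_fibre h2), fun U => meets⟩,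
    ⟨fun n => ⋃ z, G n z ×ˢ G n z, fun n => ⟨isOpen_iUnion fun z =>
      (isOpen_G n z).prod (isOpen_G n z), ?_⟩, ?_⟩, ?_⟩
  · rintro ⟨a, b⟩ (rfl : a = b)
    exact mem_iUnion.2 ⟨a, mem_G n a, mem_G n a⟩
  · apply Subset.antisymm
    · rintro ⟨a, b⟩ hab
      by_contra hne
      obtain ⟨n, O₁, O₂, o1, o2, ha, hb, hs⟩ := sep h1 hne
      obtain ⟨⟨u, v⟩, ⟨hu, hv⟩, hz⟩ := mem_closure_iff.1 (mem_iInter.1 hab n) _ (o1.prod o2)
        ⟨ha, hb⟩
      obtain ⟨z, hz1, hz2⟩ := mem_iUnion.1 hz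
      exact hs z u hu v hv hz1 hz2
    · rintro ⟨a, b⟩ (rfl : a = b)
      exact mem_iInter.2 fun n => subset_closure (mem_iUnion.2 ⟨a, mem_G n a, mem_G n a⟩)
  · refine lt_of_lt_of_le ?_ (mk_le_of_injective (f := pr β) Sum.inr_injective)
    simpa using Cardinal.cantor 𝔠

end

end Pool.Agent.H.MP_87eb76_gt
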